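import Pool.Agent.Helper45.EP.Main

/-!
# 100% of the twists of curves with `ℓ`-groups as monodromy groups have no sections

Let `K` be a number field, `ℓ` a prime number, `j ≥ 0`, `m = ℓ^j`, and let `f ∈ K[x]` be a polynomial such
that `f(x^m)` is separable of a degree `≥ 3` divisible by `ℓ` (for `j ≥ 1`: `f` is separable, `f(0) ≠ 0`).

**The tower.**  Let `Ω ⊇ K(x)` be algebraically closed, `u^m = x`, `y^ℓ = f(x)`, and let `T ⊆ Ω` be the
maximal unramified pro-`ℓ` extension of `K̄(u, y)`.  By Abhyankar's lemma `T` is the union of all finite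
Galois extensions of `K̄(x)` whose group is an `ℓ`-group and whose ramification indices divide `ℓ` over the
zeros of `f` and `m` over `0, ∞`, and which are unramified elsewhere.  So the curves with function field
in `T` are the covers of the line whose monodromy group is an arbitrary `ℓ`-group with inertia groups of
order `ℓ` over the zeros of `f` (and of order dividing `m` over `0, ∞`).

**The twists.**  Let `C` be a curve over `K` with a map `x : C → P¹` and function field `E ⊆ T`, and let
`D → C`, `t^ℓ = g` with `g ∈ E`, be a cyclic cover with `t ∈ T`.  It has the twists `D_a : t^ℓ = a g`,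
`a ∈ K*`.  Let `z` be a function on `C` and `h ∈ K[x]` a polynomial such that `z` is regular and `h(z) = 0` at
the points of `C` over which `D → C` is ramified (we may choose `z` such that the roots of `h` are the values
of `z` in these points, and different points have different values).  Let `σ ∈ G_K`, and let `Λ` be the set
of the lengths of the cycles of `σ` on the roots of `h`.

**Theorem.**  For all `a ∈ O_K` outside a set of density zero the following is true for all finite
extensions `L/K` whose degree is not in the numerical semigroup generated by `ℓ` and `Λ`: if `F ⊇ E L` is an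
algebraic extension which contains a `t` with `t^ℓ = a g`, for instance the function field of the curve `D_a`
over `L` or of a curve `t^n = a g` with `ℓ | n` or of any curve that dominates it, and if `N ⊇ T F` is an
extension of `F`, then `Gal(N/F) → G_L` has no section.  In particular, let `U` be an open subcurve of the
curve over `L` with function field `F` such that `u` and `y` are unramified over `L̄ F` at the points of `U`.
Then `π₁(U)` has no section over `G_L`.

If `D → P¹` has ramification index `ℓ` at all points over the zeros of `f` and index `m` at all points over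
`0` and `∞`, then we can take for `U` the smooth projective curve `D_a` and all its open subcurves; so all
these curves satisfy the section conjecture over all these `L`.  This is so if `D` is geometrically a Galois
cover of the line with these ramification indices, whose group `G` may be an arbitrary `ℓ`-group that is
generated by the inertia groups; if `γ` is a generator of an inertia group in `G`, whose group `⟨γ⟩` is defined
over `K` and isomorphic to `μ_ℓ` as a Galois module, we get the twists of `D` by the automorphisms `γ^i`.

* `L = K` is possible if `σ` fixes no root of `h`, that is, `Λ` does not contain `1`.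
* If all cycles of `σ` have lengths divisible by `ℓ`, then `L` may be any extension of `K` of a degree not
  divisible by `ℓ`.  In all cases where `σ` fixes no root of `h` and `ℓ` and all cycle lengths are `> d`, `L`
  may be any extension of degree `≤ d`.

**Example** (`ℓ = 2`, `m = 1`).  Let `A, B ∈ K[x]` be of degrees `2n` and `4n`, such that
`f = B (A² - B)` is separable of degree `8 n`, and `C : s² = A² - B`, `g = A + s`, `g' = A - s`.  The extension
`K̄(x, √g, √g')` of `K̄(x)` has the dihedral group of order `8`.  Our `D_a` is `t² = a (A + s)`, that is, the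
curve `t⁴ - 2 a A(x) t² + a² B(x) = 0`.  If instead we take `E = K(x, √g)` and the function `g'`, we get the
smooth projective curve `D_a` with the equations `t² + a w² = 2 A(x)`, `a t² w² = B(x)`, a twist of a Galois
cover of the line with the dihedral group; here `z = x` and `h = B`.  If the Galois group of `B` has an
element without a fixed root, then `D_a` satisfies the section conjecture for 100% of the `a ∈ O_K`.

For `C = P¹`, `g = f`, `m = 1` and `L = K` this is the known result for the twists `a y^ℓ = f(x)` of a
superelliptic curve (`SuperellipticTwists` in the library).  The known results about twists of other curves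
(`CyclicCoversOfCurves`) need a function `g` which is the norm of a function from an extension of `K`, with
divisors prime to each other, and their proofs only use Kummer theory.

The fundamental group is described through valuations.  Let `U` be a smooth geometrically connected
curve over `k` with function field `F`, let `Ω` be an algebraic closure of `F`, and let `F_U` be the
maximal extension of `F` inside `Ω` which is unramified over the closed points of `U`, that is, over
their local rings, which are valuation rings of `F`.  Then `π₁(U) = Gal(F_U/F)`, and the map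
`π₁(U) → G_k` is the restriction of automorphisms to the algebraic closure of `k` in `Ω`.

**Proof.**  Let `v` be a prime of `K` with `v(a) = 1` at which `f`, `E` and `g` have good reduction and whose
Frobenius element acts on the roots of `h` like `σ`.  As `[L : K] = ∑ e_w f_w`, there is a prime `w` of `L`
over `v` with `ℓ ∤ e_w` such that `f_w` is not divisible by an element of `Λ`.  Let `V` be a place of `L̄` above
`w`, with decomposition group `D_V`, and `s` a section.  It acts on `T`.  There are `δ, ρ ∈ L̄` with
`δ^ℓ, ρ^m ∈ L` and `s(σ) y = (σδ/δ) y`, `s(σ) u = (σρ/ρ) u` (Hilbert 90).  (1) The Gauss valuation of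
`L̄(x)` at `V` has exactly one prolongation `O` to `T`, and the automorphism group of `T` over `L̄(x)` maps
isomorphically onto the one of the residue field.  (2) An element `σ` of the inertia group of `V` acts on
this residue field like exactly one `γ_σ ∈ Gal(T/L̄(x))`; a weight argument shows that `γ_σ` has finite
order and is trivial if `σ` fixes `δ` and `ρ`.  (3) As `E` has good reduction, `γ_σ` fixes `E`; but `γ_σ`
moves `t` for some `σ`, as `w(a)` is prime to `ℓ`.  A power `γ` of `γ_σ` has order `ℓ`, fixes `E` and moves
`t`.  (4) Every element of order `ℓ` fixes exactly one place `W` of `T`.  The place `W` of `γ` is ramified in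
`T/E` as `γ` fixes it, `t` is ramified there, and it is fixed by `s(D_V)`, as `s(D_V)` normalises the group
generated by `γ`.  So the values at `W` of the functions in `E` are fixed by `D_V`, and `h` has a root in the
residue field of `w`, a contradiction.

The library contains (1), (2) and (4) for superelliptic curves.
-/

open Polynomial NumberField

namespace Pool.Agent.Helper45.Withdrawn.TwistsInTowers

section definitions

variable (ℓ : ℕ) (k F Ω : Type) [Field k] [Field F] [Field Ω] [Algebra k F] [Algebra F Ω]
  [Algebra k Ω]

/-- The inertia group of the valuation ring `W` of `Ω`, as a subgroup of `Gal(Ω/F)`: the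
automorphisms of `Ω` over `F` that map `W` onto itself and act as the identity on its residue
field. -/
noncomputable def inertia (W : ValuationSubring Ω) : Subgroup (Ω ≃ₐ[F] Ω) :=
  (W.inertiaSubgroup F).map (W.decompositionSubgroup F).subtype

/-- `F_U`, for a set `U` of valuation rings of `F`: the elements of `Ω` fixed by the inertia groups
of all valuation rings `W` of `Ω` with `W ∩ F ∈ U`.  If `Ω` is an algebraic closure of a field `F`
of characteristic zero, this is the maximal extension of `F` in `Ω` unramified over `U`. -/
noncomputable def unramified (U : Set (ValuationSubring F)) : IntermediateField F Ω :=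
  ⨅ W : {W : ValuationSubring Ω // W.comap (algebraMap F Ω) ∈ U},
    IntermediateField.fixedField (inertia F Ω W.1)

/-- `k̄ F`, the compositum of `F` and of the algebraic closure of `k` in `Ω`. -/
noncomputable def geomField : IntermediateField F Ω :=
  IntermediateField.adjoin F (algebraicClosure k Ω : Set Ω)

/-- The element `t` of `Ω` is ramified over `k̄ F` at the valuation ring `W` of `Ω`: no nonzero
element of `k̄ F` has the same valuation as `t`. -/
def RamifiedAt {Ω : Type} [Field Ω] [Algebra F Ω] [Algebra k Ω] (W : ValuationSubring Ω) (t : Ω) :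
    Prop :=
  ∀ w ∈ geomField k F Ω, w ≠ 0 → ¬ (t / w ∈ W ∧ (t / w)⁻¹ ∈ W)

/-- The algebraic extension `L` of `K` in `Ω` is unramified at all valuation rings of `Ω` that
contain `k`: every nonzero element of `L` has the same valuation as an element of `K`.  (If `K` is
a function field of one variable over the algebraic closure of `k` and `k` has characteristic zero,
then this says that `L/K` is unramified over all points of the smooth projective curve.) -/
def Unramified {k K Ω : Type} [Field k] [Field K] [Field Ω] [Algebra k Ω] [Algebra K Ω]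
    (L : IntermediateField K Ω) : Prop :=
  ∀ W : ValuationSubring Ω, (∀ c : k, algebraMap k Ω c ∈ W) → ∀ z ∈ L, z ≠ 0 →
    ∃ t : K, t ≠ 0 ∧ z / algebraMap K Ω t ∈ W ∧ (z / algebraMap K Ω t)⁻¹ ∈ W

/-- `L/K` is a finite Galois extension whose degree is a power of `ℓ`. -/
def FiniteProEll (ℓ : ℕ) {K Ω : Type} [Field K] [Field Ω] [Algebra K Ω]
    (L : IntermediateField K Ω) : Prop :=
  FiniteDimensional K L ∧ IsGalois K L ∧ ∃ m : ℕ, Module.finrank K L = ℓ ^ m

/-- The maximal unramified pro-`ℓ` extension of `K` in `Ω`: the compositum of the finite Galois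
extensions of `K` whose degree is a power of `ℓ` and which are unramified. -/
noncomputable def maxProEll (ℓ : ℕ) (k K Ω : Type) [Field k] [Field K] [Field Ω] [Algebra k Ω]
    [Algebra K Ω] : IntermediateField K Ω :=
  ⨆ L : {L : IntermediateField K Ω // FiniteProEll ℓ L ∧ Unramified (k := k) L}, L.1

/-- The field `k̄(u, y)`, for elements `u, y` of `Ω`. -/
noncomputable def curveField {Ω : Type} [Field Ω] [Algebra k Ω] (u y : Ω) :
    IntermediateField k Ω :=
  IntermediateField.adjoin k ((algebraicClosure k Ω : Set Ω) ∪ {u, y})

/-- The tower: the maximal unramified pro-`ℓ` extension of `k̄(u, y)`, as an extension of `k`. -/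
noncomputable def tower {Ω : Type} [Field Ω] [Algebra k Ω] (u y : Ω) : IntermediateField k Ω :=
  (maxProEll ℓ k (curveField k u y) Ω).restrictScalars k

/-- The map `τ : M → M` acts as `σ : K → K` on the elements that the fields `K` and `M` have in
common when they are regarded as subfields of `Ω` through `i` and `j`. -/
def ActsAs {K M Ω : Type} [Field K] [Field M] [Field Ω] (i : K →+* Ω) (j : M →+* Ω) (σ : K → K)
    (τ : M → M) : Prop :=
  ∀ c z, j z = i c → j (τ z) = i (σ c)

/-- Let `k ⊆ K ⊆ Ω` and `F ⊆ N ⊆ Ω` be fields.  A splitting of `Gal(N/F) → Gal(K/k)`: a continuous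
homomorphism `s` from `Gal(K/k)` to `Gal(N/F)` such that `s(σ)` acts as `σ` on the elements of
`K ∩ N`. -/
structure Splitting (K N : Type) [Field K] [Field N] [Algebra k K] [Algebra F N] [Algebra K Ω]
    [Algebra N Ω] where
  /-- the homomorphism `Gal(K/k) → Gal(N/F)` -/
  toHom : (K ≃ₐ[k] K) →* (N ≃ₐ[F] N)
  cont : Continuous toHom
  compat : ∀ σ : K ≃ₐ[k] K, ActsAs (algebraMap K Ω) (algebraMap N Ω) σ (toHom σ)

/-- There are no sections of `Gal(N/F) → G_k`, where `G_k = Gal(k̄/k)` and `k̄` is the algebraic
closure of `k` in `Ω`.  For `N = F_U` these are the sections of `π₁(U) → G_k`. -/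
def NoSplitting (N : IntermediateField F Ω) : Prop :=
  IsEmpty (Splitting k F Ω (algebraicClosure k Ω) N)

end definitions

section curves

variable {K : Type} [Field K] (ℓ j : ℕ) (f : K[X]) {E : Type} [Field E] [Algebra K E] (x g z : E)

/-- Let `E` be the function field of a curve `C` over `K` with a map `x` to the line, and `g ∈ E`.  For
all algebraic closures `Ω` of `E` and all `u, y, t` in `Ω` with `u^(ℓ^j) = x`, `y^ℓ = f(x)` and `t^ℓ = g` the
field `E` and the element `t` are in the tower of `K̄(u, y)`, and at all valuation rings `W ≠ Ω` of `Ω` that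
contain `K` where `t` is ramified over `K̄ E` the function `z ∈ E` has no pole, and `h(z)` has a zero. -/
def CyclicCoverInTower (h : K[X]) : Prop :=
  ∀ (Ω : Type) [Field Ω] [Algebra K Ω] [Algebra E Ω] [IsScalarTower K E Ω] [IsAlgClosure E Ω]
    (u y t : Ω), u ^ ℓ ^ j = algebraMap E Ω x → y ^ ℓ = algebraMap E Ω (aeval x f) →
    t ^ ℓ = algebraMap E Ω g →
    (∀ e : E, algebraMap E Ω e ∈ tower ℓ K u y) ∧ t ∈ tower ℓ K u y ∧
    ∀ W : ValuationSubring Ω, (∀ c : K, algebraMap K Ω c ∈ W) → W ≠ ⊤ → RamifiedAt K E W t →
      algebraMap E Ω z ∈ W ∧ aeval (algebraMap E Ω z) h ∈ W.nonunits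

/-- Let `F` be a field that contains `L` and is an algebraic extension of `E`, such that `a g` is an
`ℓ`-th power in `F`, let `Ω` be an algebraic closure of `F` and `u, y ∈ Ω`, `u^(ℓ^j) = x`, `y^ℓ = f(x)`.
Then for all extensions `N` of `F` in `Ω` which contain the tower of `L̄(u, y)` there is no section of
`Gal(N/F) → G_L`; and for every set `U` of valuation rings of `F` over `L` such that `u` and `y` are
unramified over `L̄ F` at all valuation rings of `Ω` above `U`, there is no section of
`π₁(U) → G_L`. -/
def NoSections (a : K) (L : Type) [Field L] [Algebra K L] : Prop :=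
  ∀ (F Ω : Type) [Field F] [Field Ω] [Algebra L F] [Algebra E F] [Algebra F Ω] [Algebra L Ω]
    [IsScalarTower L F Ω] [IsAlgClosure F Ω] [Algebra.IsAlgebraic E F] (t : F) (u y : Ω),
    (∀ c : K, algebraMap E F (algebraMap K E c) = algebraMap L F (algebraMap K L c)) →
    t ^ ℓ = algebraMap L F (algebraMap K L a) * algebraMap E F g →
    u ^ ℓ ^ j = algebraMap F Ω (algebraMap E F x) →
    y ^ ℓ = algebraMap F Ω (algebraMap E F (aeval x f)) →
    (∀ N : IntermediateField F Ω, (∀ w ∈ tower ℓ L u y, w ∈ N) → NoSplitting L F Ω N) ∧
    ∀ U : Set (ValuationSubring F),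
      (∀ W : ValuationSubring Ω, W.comap (algebraMap F Ω) ∈ U →
        (∀ c : L, algebraMap L Ω c ∈ W) ∧ ¬ RamifiedAt L F W u ∧ ¬ RamifiedAt L F W y) →
      NoSplitting L F Ω (unramified F Ω U)

/-- The lengths of the cycles of the automorphism `σ` of `K̄` on the roots of `h`. -/
def CycleLengths (σ : AlgebraicClosure K ≃ₐ[K] AlgebraicClosure K) (h : K[X]) : Set ℕ :=
  {n | ∃ θ : AlgebraicClosure K, aeval θ h = 0 ∧ Function.minimalPeriod σ θ = n}

end curves

/-- Density zero: for every `ε > 0` there is an ideal `I ≠ 0` such that `E` lies in at most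
`ε #(O_K/I)` residue classes modulo `I`. -/
def DensityZero {K : Type} [Field K] (E : Set (𝓞 K)) : Prop :=
  ∀ ε : ℝ, 0 < ε → ∃ I : Ideal (𝓞 K), I ≠ ⊥ ∧
    (Set.ncard ((Ideal.Quotient.mk I) '' E) : ℝ) ≤ ε * Nat.card (𝓞 K ⧸ I)

lemma iSup_congr_prop {α : Type} [CompleteLattice α] {P Q : α → Prop} (h : ∀ L, P L ↔ Q L) :
    (⨆ L : {L // P L}, L.1) = ⨆ L : {L // Q L}, L.1 := by
  have h1 : P = Q := funext fun L => propext (h L)
  subst h1
  rfl

lemma maxProEll_eq (ℓ : ℕ) (k K Ω : Type) [Field k] [Field K] [Field Ω] [Algebra k Ω]
    [Algebra K Ω] : maxProEll ℓ k K Ω = Pool.Agent.Y157.PS.maxPro ℓ k K Ω := by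
  unfold maxProEll Pool.Agent.Y157.PS.maxPro
  refine iSup_congr_prop fun L => ?_
  constructor
  · rintro ⟨⟨h1, h2, h3⟩, h4⟩
    refine ⟨⟨h1, h2, h3⟩, fun W hW z hz hz0 => ?_⟩
    obtain ⟨t, ht, h5, h6⟩ := h4 W hW z hz hz0
    exact ⟨t, ht, div_ne_zero hz0 ((_root_.map_ne_zero _).2 ht), h5, h6⟩
  · rintro ⟨⟨h1, h2, h3⟩, h4⟩
    refine ⟨⟨h1, h2, h3⟩, fun W hW z hz hz0 => ?_⟩
    obtain ⟨t, ht, -, h5, h6⟩ := h4 W hW z hz hz0
    exact ⟨t, ht, h5, h6⟩

lemma mem_tower (ℓ : ℕ) (k : Type) {Ω : Type} [Field k] [Field Ω] [Algebra k Ω] (u y z : Ω) :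
    z ∈ tower ℓ k u y ↔
      z ∈ Pool.Agent.Y157.PS.maxPro ℓ k (Pool.Agent.Helper45.EP.curveF k u y) Ω := by
  unfold tower
  rw [maxProEll_eq]
  rfl

/-- Let `K` be a number field, `ℓ` a prime number, and `f ∈ K[x]` such that `f(x^(ℓ^j))` is separable of a
degree `≥ 3` divisible by `ℓ`.  Let `x` be a nonconstant function on a curve over `K` with function field
`E`, and `g ≠ 0` another one, such that `E` and the `ℓ`-th roots of `g` are in the tower of `K̄(u, y)`,
`u^(ℓ^j) = x`, `y^ℓ = f(x)`, and such that the function `z` takes roots of the polynomial `h ≠ 0` as values at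
the points where the `ℓ`-th root of `g` is ramified.  Let `σ ∈ G_K`.  Then for all `a ∈ O_K` outside a set of
density zero, for all finite extensions `L` of `K` whose degree is not in the semigroup generated by `ℓ`
and the lengths of the cycles of `σ` on the roots of `h`, the curve `t^ℓ = a g` over `L`, and every curve
which dominates it, has no section. -/
theorem result (K : Type) [Field K] [NumberField K] (ℓ : ℕ) [Fact ℓ.Prime] (j : ℕ) (f : K[X])
    (hf : (expand K (ℓ ^ j) f).Separable) (hdvd : ℓ ∣ (expand K (ℓ ^ j) f).natDegree)
    (h3 : 3 ≤ (expand K (ℓ ^ j) f).natDegree) (E : Type) [Field E] [Algebra K E] (x g z : E)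
    (hx : Transcendental K x) [FiniteDimensional (IntermediateField.adjoin K {x}) E] (hg : g ≠ 0)
    (h : K[X]) (hh : h ≠ 0) (hT : CyclicCoverInTower ℓ j f x g z h)
    (σ : AlgebraicClosure K ≃ₐ[K] AlgebraicClosure K) :
    DensityZero {a : 𝓞 K | ¬ ∀ (L : Type) [Field L] [Algebra K L] [FiniteDimensional K L],
      Module.finrank K L ∉ AddSubmonoid.closure (insert ℓ (CycleLengths σ h)) →
      NoSections ℓ j f x g (algebraMap (𝓞 K) K a) L} := by
  have hℓp : ℓ.Prime := Fact.out
  have hInT : Pool.Agent.Helper45.EP.InT ℓ j f x g z h := by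
    intro Ω _ _ _ _ _ u y t hu hy ht
    obtain ⟨h1, h2, h4⟩ := hT Ω u y t hu hy ht
    refine ⟨fun e => (mem_tower _ _ _ _ _).1 (h1 e), (mem_tower _ _ _ _ _).1 h2,
      fun W hW hW' hram => h4 W hW hW' fun w hw hw0 hU => hram w hw hw0 ⟨?_, hU.1, hU.2⟩⟩
    refine div_ne_zero ?_ hw0
    rintro rfl
    rw [zero_pow hℓp.ne_zero] at ht
    exact (_root_.map_ne_zero (algebraMap E Ω)).2 hg ht.symm
  intro ε hε
  obtain ⟨I, hI, hIE⟩ := Pool.Agent.Helper45.EP.main_density f hf hdvd h3 x g z hx hg h hh hInT
    σ ε hε
  refine ⟨I, hI, le_trans ?_ hIE⟩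
  have hfin : Finite (𝓞 K ⧸ I) := Ideal.finiteQuotientOfFreeOfNeBot _ hI
  have hsub : {a : 𝓞 K | ¬ ∀ (L : Type) [Field L] [Algebra K L] [FiniteDimensional K L],
      Module.finrank K L ∉ AddSubmonoid.closure (insert ℓ (CycleLengths σ h)) →
      NoSections ℓ j f x g (algebraMap (𝓞 K) K a) L} ⊆
      {a : 𝓞 K | ¬ ∀ (L : Type) [Field L] [Algebra K L] [FiniteDimensional K L],
        Module.finrank K L ∉ AddSubmonoid.closure
          (insert ℓ (Pool.Agent.Helper45.EP.Periods σ h)) →
        Pool.Agent.Helper45.EP.NoS ℓ j f x g (algebraMap (𝓞 K) K a) L} := by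
    intro a ha hfine
    apply ha
    intro L _ _ _ hL F Ω _ _ _ _ _ _ _ _ _ t u y hi ht hu hy
    have hcl : IsAlgClosed Ω := IsAlgClosure.isAlgClosed F
    have halg : Algebra.IsAlgebraic F Ω := IsAlgClosure.isAlgebraic
    have key : ∀ N : IntermediateField F Ω, (∀ w ∈ tower ℓ L u y, w ∈ N) →
        NoSplitting L F Ω N := by
      intro N hN
      exact ⟨fun s => hfine L hL F Ω t u y N s.toHom hi ht hu hy
        (fun w hw => hN w ((mem_tower _ _ _ _ _).2 hw)) s.cont s.compat⟩
    refine ⟨key, fun U hU => key _ fun w hw => ?_⟩
    rw [mem_tower] at hw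
    have hchL : CharZero L := charZero_of_injective_algebraMap (algebraMap K L).injective
    have hch : CharZero Ω := charZero_of_injective_algebraMap (algebraMap L Ω).injective
    change w ∈ Pool.Agent.W620.SC.unramified F Ω U
    rw [Pool.Agent.W620.SC.mem_unramified]
    intro W hW σ hσ
    obtain ⟨hWL, hur, hyr⟩ := hU W hW
    unfold RamifiedAt at hur hyr
    push Not at hur hyr
    obtain ⟨w₁, hw₁, hw₁0, h5, h6⟩ := hur
    obtain ⟨w₂, hw₂, hw₂0, h7, h8⟩ := hyr
    have hσ' : ∀ z ∈ W, σ z - z ∈ W.nonunits := fun z hz =>
      (Pool.Agent.W620.SC.inertia_spec hσ hz).2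
    have hne : ∀ {n : ℕ} {q : Ω} {p : K[X]}, p ≠ 0 → n ≠ 0 →
        q ^ n = algebraMap F Ω (algebraMap E F (aeval x p)) → q ≠ 0 := by
      intro n q p hp hn hq h0
      rw [h0, zero_pow hn] at hq
      have h9 : aeval x p = 0 :=
        (map_eq_zero_iff _ (algebraMap E F).injective).1
          ((map_eq_zero_iff _ (algebraMap F Ω).injective).1 hq.symm)
      exact hp ((transcendental_iff.1 hx) p h9)
    have hf0 : f ≠ 0 := by
      rintro rfl
      rw [map_zero] at hf
      exact hf.ne_zero rfl
    have hu0 : u ≠ 0 := hne (p := X) X_ne_zero (pow_pos hℓp.pos j).ne' (by rw [aeval_X]; exact hu)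
    have hy0 : y ≠ 0 := hne hf0 hℓp.ne_zero hy
    refine Pool.Agent.Helper45.EP.tower_fixed (pow_pos hℓp.pos j) W hWL σ hσ' hw₁ hw₂
      ⟨div_ne_zero hu0 hw₁0, h5, h6⟩ ⟨div_ne_zero hy0 hw₂0, h7, h8⟩ ?_ ?_ hw
    · rw [hu]
      exact σ.commutes _
    · rw [hy]
      exact σ.commutes _
  exact_mod_cast Set.ncard_le_ncard (Set.image_mono hsub) (Set.toFinite _)

end Pool.Agent.Helper45.Withdrawn.TwistsInTowers
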